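import Pool.Agent.H31.PC.Targets

/-!
# Module DBL of the board `pc_modules` (MP_6e60ff_nt)
-/

set_option autoImplicit false

namespace Pool.Agent.H59.PC.DBL

open Finset MvPolynomial Pool.Agent.H31.PC Pool.Agent.H31.RZ

theorem cell_lt {k R : ℕ} (hk : 1 ≤ k) {c : ℤ} (hc : |c| ≤ ((k * R : ℕ) : ℤ)) :
    ((c + ((k * R : ℕ) : ℤ)) / ((R : ℤ) + 1)).toNat < 2 * k := by
  have h1 := abs_le.1 hc
  have h2 : (c + ((k * R : ℕ) : ℤ)) / ((R : ℤ) + 1) < 2 * (k : ℤ) := by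
    apply Int.ediv_lt_of_lt_mul (by positivity)
    push_cast at h1 ⊢
    have hk' : (1 : ℤ) ≤ k := by exact_mod_cast hk
    nlinarith [h1.2]
  have h3 : 0 ≤ (c + ((k * R : ℕ) : ℤ)) / ((R : ℤ) + 1) :=
    Int.ediv_nonneg (by linarith [h1.1]) (by positivity)
  omega

theorem cell_eq {k R : ℕ} {c c' : ℤ} (hc : |c| ≤ ((k * R : ℕ) : ℤ))
    (hc' : |c'| ≤ ((k * R : ℕ) : ℤ))
    (h : ((c + ((k * R : ℕ) : ℤ)) / ((R : ℤ) + 1)).toNat =
      ((c' + ((k * R : ℕ) : ℤ)) / ((R : ℤ) + 1)).toNat) : |c - c'| ≤ (R : ℤ) := by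
  have h1 := (abs_le.1 hc).1
  have h2 := (abs_le.1 hc').1
  have hR : (0 : ℤ) < (R : ℤ) + 1 := by positivity
  have h3 : 0 ≤ (c + ((k * R : ℕ) : ℤ)) / ((R : ℤ) + 1) :=
    Int.ediv_nonneg (by linarith) hR.le
  have h4 : 0 ≤ (c' + ((k * R : ℕ) : ℤ)) / ((R : ℤ) + 1) :=
    Int.ediv_nonneg (by linarith) hR.le
  have h5 : (c + ((k * R : ℕ) : ℤ)) / ((R : ℤ) + 1) =
      (c' + ((k * R : ℕ) : ℤ)) / ((R : ℤ) + 1) := by omega
  have e1 := Int.mul_ediv_add_emod (c + ((k * R : ℕ) : ℤ)) ((R : ℤ) + 1)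
  have e2 := Int.mul_ediv_add_emod (c' + ((k * R : ℕ) : ℤ)) ((R : ℤ) + 1)
  have m1 := Int.emod_nonneg (c + ((k * R : ℕ) : ℤ)) hR.ne'
  have m2 := Int.emod_lt_of_pos (c + ((k * R : ℕ) : ℤ)) hR
  have m3 := Int.emod_nonneg (c' + ((k * R : ℕ) : ℤ)) hR.ne'
  have m4 := Int.emod_lt_of_pos (c' + ((k * R : ℕ) : ℤ)) hR
  rw [h5] at e1
  rw [abs_le]
  constructor <;> linarith

theorem fibre_card {α ι : Type} [Fintype ι] [DecidableEq ι] (S : Finset α) (f : α → ι → ℕ)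
    (n M : ℕ) (hlt : ∀ a ∈ S, ∀ i, f a i < n)
    (hM : ∀ a₀ ∈ S, ∀ T : Finset α, (∀ a ∈ T, a ∈ S ∧ f a = f a₀) → #T ≤ M) :
    #S ≤ n ^ Fintype.card ι * M := by
  classical
  have hmaps : ∀ a ∈ S, f a ∈ Fintype.piFinset fun _ : ι => Finset.range n := by
    intro a ha
    rw [Fintype.mem_piFinset]
    intro i
    rw [Finset.mem_range]
    exact hlt a ha i
  have hcard : #(Fintype.piFinset fun _ : ι => Finset.range n) = n ^ Fintype.card ι := by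
    rw [Fintype.card_piFinset]
    simp only [Finset.card_range, Finset.prod_const, Finset.card_univ]
  rw [← hcard, mul_comm]
  refine Finset.card_le_mul_card_image_of_maps_to hmaps _ fun b _ => ?_
  rcases Finset.eq_empty_or_nonempty (Finset.filter (fun a => f a = b) S) with h0 | ⟨a₀, ha₀⟩
  · rw [h0, Finset.card_empty]
    exact Nat.zero_le _
  · obtain ⟨h1, h2⟩ := Finset.mem_filter.1 ha₀
    refine hM a₀ h1 _ fun a ha => ?_
    obtain ⟨h3, h4⟩ := Finset.mem_filter.1 ha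
    exact ⟨h3, h4.trans h2.symm⟩

/-- the cells -/
noncomputable def cl (e k R : ℕ) (g : MvPolynomial (Fin 3) ℤ) (μ : Mon 2 e) : ℕ :=
  ((g.coeff μ.1 + ((k * R : ℕ) : ℤ)) / ((R : ℤ) + 1)).toNat

theorem sub_mem {e k R : ℕ} {x : Fin 3 → ℤ} {g g₀ : MvPolynomial (Fin 3) ℤ}
    (hg : g ∈ Lam e (k * R) x) (hg₀ : g₀ ∈ Lam e (k * R) x)
    (h : cl e k R g = cl e k R g₀) : g - g₀ ∈ Lam e R x := by
  obtain ⟨⟨a1, a2⟩, a3⟩ := mem_Lam.1 hg₀
  obtain ⟨⟨b1, b2⟩, b3⟩ := mem_Lam.1 hg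
  refine mem_Lam.2 ⟨⟨b1.sub a1, fun μ => ?_⟩, ?_⟩
  · by_cases hμ : μ ∈ Mon 2 e
    · rw [coeff_sub]
      have h5 : cl e k R g ⟨μ, hμ⟩ = cl e k R g₀ ⟨μ, hμ⟩ := by rw [h]
      unfold cl at h5
      exact cell_eq (b2 μ) (a2 μ) h5
    · have h6 : μ.degree ≠ e := fun h => hμ (mem_Mon.2 h)
      rw [(b1.sub a1).coeff_eq_zero h6, abs_zero]
      positivity
  · rw [map_sub, a3, b3, sub_zero]

theorem pf_DBL : T_DBL := by
  intro e k R x hk
  have h1 := fibre_card (Lam e (k * R) x) (cl e k R) (2 * k) #(Lam e R x)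
    (fun g hg μ => by
      unfold cl
      exact cell_lt hk ((mem_Lam.1 hg).1.2 μ.1))
    (fun g₀ hg₀ T hT => by
      refine Finset.card_le_card_of_injOn (fun g => g - g₀) ?_ ?_
      · intro g hg
        obtain ⟨h3, h4⟩ := hT g (Finset.mem_coe.1 hg)
        exact Finset.mem_coe.2 (sub_mem h3 hg₀ h4)
      · intro g _ g' _ h
        exact sub_left_injective h)
  rw [Fintype.card_coe] at h1
  exact h1

end Pool.Agent.H59.PC.DBL
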